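import Pool.Agent.Helper80.HG.St

/-!
Project HG (MP_1bacb5_al, helper80), module NM: conjugation multiplies the displacement asymptotically
by a positive constant.
-/

set_option autoImplicit false

namespace Pool.Agent.Helper64.HG
open Pool.Agent.Helper80.HG Filter Topology Asymptotics
open scoped commutatorElement

/-- the displacement of a positive element is positive -/
private theorem dsp_pos {Γ : Type} [Group Γ] {θ : Γ → ℝ → ℝ} {h : Γ} (hh : Pos θ h) :
    ∀ᶠ z in atTop, 0 < dsp θ h z := by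
  filter_upwards [hh] with z hz
  exact sub_pos.mpr hz

/-- the displacement of the inverse of a positive element -/
private theorem inv_ratio {H : Set (ℝ → ℝ)} {Γ : Type} [Group Γ] {θ : Γ → ℝ → ℝ} (hSB : SB H θ)
    {h : Γ} (hh : Pos θ h) :
    Tendsto (fun z => dsp θ h⁻¹ z / dsp θ h z) atTop (𝓝 (-1)) := by
  have h1 := (hSB.invd h).tendsto_div_nhds_zero
  have h2 : Tendsto (fun z => (dsp θ h⁻¹ z + dsp θ h z) / dsp θ h z - 1) atTop (𝓝 (0 - 1)) :=
    h1.sub_const 1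
  rw [zero_sub] at h2
  refine h2.congr' ?_
  filter_upwards [dsp_pos hh] with z hz
  rw [add_div, div_self hz.ne']
  ring

/-- the case of a positive element -/
private theorem pos_case (hPC : StPC) {H : Set (ℝ → ℝ)} (hB : Bas H) {Γ : Type} [Group Γ]
    {θ : Γ → ℝ → ℝ} (hSB : SB H θ)
    (hNV : ∀ (f g : Γ) (L0 L1 : ℝ → ℝ), Ps H θ f L0 → Ps H θ (g * f * g⁻¹) L1 →
      Tendsto (fun x => L0 x - L1 x) atTop atTop → False)
    (g f : Γ) (hf : Pos θ f) : ∃ l : ℝ, 0 < l ∧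
      Tendsto (fun z => dsp θ (g * f * g⁻¹) z / dsp θ f z) atTop (𝓝 l) := by
  obtain ⟨L0, hL0⟩ := hSB.ps f hf
  obtain ⟨L1, hL1, hT1⟩ := hPC H hB Γ θ hSB g f L0 hL0
  rcases hB.lim _ (hB.sub L0 hL0.1 L1 hL1.1) with ⟨κ, hκ⟩ | hinf | hbot
  · refine ⟨Real.exp κ, Real.exp_pos κ, ?_⟩
    have h1 : Tendsto (fun z => Real.exp (L0 z - L1 z)) atTop (𝓝 (Real.exp κ)) :=
      (Real.continuous_exp.tendsto κ).comp hκ
    refine h1.congr' ?_
    filter_upwards [hL0.2.2, hL1.2.2] with z h0 h1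
    rw [h0, h1, ← Real.exp_sub]
    congr 1
    ring
  · exact (hNV f g L0 L1 hL0 hL1 hinf).elim
  · exfalso
    obtain ⟨L2, hL2, hT2⟩ := hPC H hB Γ θ hSB g⁻¹ f L0 hL0
    refine hNV f g⁻¹ L0 L2 hL0 hL2 ?_
    have hθ : Tendsto (θ g) atTop atTop := hSB.top g
    have h3 : Tendsto (fun z => L2 (θ g⁻¹ (θ g z)) - L0 (θ g z)) atTop (𝓝 0) := hT2.comp hθ
    have hinv : ∀ᶠ z in atTop, θ g⁻¹ (θ g z) = z := by
      have := hSB.inv g⁻¹
      rwa [inv_inv] at this
    have h4 : Tendsto (fun z => L2 z - L0 (θ g z)) atTop (𝓝 0) := by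
      refine h3.congr' ?_
      filter_upwards [hinv] with z hz
      rw [hz]
    have h5 : Tendsto (fun z => L1 (θ g z) - L0 (θ g z)) atTop atTop := by
      have h6 : Tendsto (fun x => L1 x - L0 x) atTop atTop := by
        have h7 := tendsto_neg_atBot_atTop.comp hbot
        refine h7.congr ?_
        intro x
        simp
      exact h6.comp hθ
    have h8 : Tendsto (fun z => -(L1 (θ g z) - L0 z) - (L2 z - L0 (θ g z))) atTop (𝓝 (-0 - 0)) :=
      hT1.neg.sub h4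
    have h9 := h5.atTop_add h8
    refine h9.congr ?_
    intro z
    ring

theorem hNM : StNM := by
  intro hPC H hB Γ _ θ hSB hNV g f hf
  rcases hSB.tri f with h1 | h1 | h1
  · exact (hf h1).elim
  · exact pos_case hPC hB hSB hNV g f h1
  · obtain ⟨l, hl, hT⟩ := pos_case hPC hB hSB hNV g f⁻¹ h1
    refine ⟨l, hl, ?_⟩
    have hy : Pos θ (g * f⁻¹ * g⁻¹) := hSB.pconj g f⁻¹ h1
    have hyi : (g * f⁻¹ * g⁻¹)⁻¹ = g * f * g⁻¹ := by group
    have h2 := inv_ratio hSB h1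
    have h3 := inv_ratio hSB hy
    rw [inv_inv] at h2
    rw [hyi] at h3
    have h4 : Tendsto (fun z => dsp θ (g * f * g⁻¹) z / dsp θ (g * f⁻¹ * g⁻¹) z *
        (dsp θ (g * f⁻¹ * g⁻¹) z / dsp θ f⁻¹ z) * (dsp θ f z / dsp θ f⁻¹ z)⁻¹) atTop
        (𝓝 (-1 * l * (-1)⁻¹)) := (h3.mul hT).mul (h2.inv₀ (by norm_num))
    have h5 : (-1 : ℝ) * l * (-1)⁻¹ = l := by norm_num
    rw [h5] at h4
    refine h4.congr' ?_
    filter_upwards [dsp_pos h1, dsp_pos hy] with z hz1 hz2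
    rw [inv_div]
    have e1 := hz1.ne'
    have e2 := hz2.ne'
    field_simp

end Pool.Agent.Helper64.HG
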